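import Mathlib

set_option autoImplicit false

open Set Filter Topology

namespace Pool.Agent.Results.MP_98cb65_gt.InfiniteTorus

/-- The self-map `T` of the metric space `X` has iterate displacement below `B`. -/
def DisplacementBelow {X : Type} [MetricSpace X] (T : X → X) (B : ℝ) : Prop :=
  ∀ x : X, ∀ n : ℕ, 1 ≤ n → dist (T^[n] x) x < B

/-- Property (F): for some `B > 0`, every continuous self-map of `X` with iterate displacement
below `B` has a fixed point. -/
def PropertyF (X : Type) [MetricSpace X] : Prop :=
  ∃ B : ℝ, 0 < B ∧ ∀ T : X → X, Continuous T → DisplacementBelow T B → ∃ x : X, T x = x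

/-- The infinite-dimensional torus. -/
abbrev Tor : Type := ℕ → UnitAddCircle

/-- rotation of the coordinate with index `N` by half a turn -/
noncomputable def rot (N : ℕ) (x : Tor) : Tor :=
  Function.update x N (x N + ((1 / 2 : ℝ) : UnitAddCircle))

theorem rot_continuous (N : ℕ) : Continuous (rot N) := by
  unfold rot
  fun_prop

theorem half_ne : ((1 / 2 : ℝ) : UnitAddCircle) ≠ 0 := by
  intro h
  rw [AddCircle.coe_eq_zero_iff] at h
  obtain ⟨n, hn⟩ := h
  have h2 : (2 * n : ℝ) = 1 := by
    simp at hn
    linarith
  have h3 : (2 * n : ℤ) = 1 := by exact_mod_cast h2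
  omega

theorem rot_ne (N : ℕ) (x : Tor) : rot N x ≠ x := by
  intro h
  have h1 := congrFun h N
  unfold rot at h1
  rw [Function.update_self] at h1
  exact half_ne (by simpa using h1)

theorem rot_iter (N n : ℕ) (x : Tor) (i : ℕ) (hi : i ≠ N) : ((rot N)^[n] x) i = x i := by
  induction n with
  | zero => rfl
  | succ n ih =>
    rw [Function.iterate_succ_apply']
    unfold rot at ih ⊢
    rw [Function.update_of_ne hi]
    exact ih

instance locConn : LocallyConnectedSpace UnitAddCircle :=
  (QuotientAddGroup.isQuotientMap_mk (N := AddSubgroup.zmultiples (1 : ℝ))).isCoinducing.locallyConnectedSpace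

/-- There is a locally connected continuum without property (F). -/
theorem result : ∃ (X : Type) (_ : MetricSpace X), CompactSpace X ∧ ConnectedSpace X ∧
    LocallyConnectedSpace X ∧ ¬ PropertyF X := by
  let m : MetricSpace Tor := PiCountable.metricSpace
  refine ⟨Tor, m, inferInstance, inferInstance, inferInstance, ?_⟩
  rintro ⟨B, hB, hT⟩
  obtain ⟨N, hN⟩ := exists_pow_lt_of_lt_one hB (show (2⁻¹ : ℝ) < 1 by norm_num)
  obtain ⟨x, hx⟩ := hT (rot N) (rot_continuous N) (by
    intro x n _
    refine lt_of_le_of_lt ?_ hN
    show (∑' i, min (2⁻¹ ^ Encodable.encode i) (dist (((rot N)^[n] x) i) (x i))) ≤ 2⁻¹ ^ N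
    rw [tsum_eq_single N]
    · exact min_le_left _ _
    · intro i hi
      rw [rot_iter N n x i hi, dist_self, min_eq_right]
      positivity)
  exact rot_ne N x hx

end Pool.Agent.Results.MP_98cb65_gt.InfiniteTorus
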